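import Pool.Agent.Helper69.CB.Satur

/-! MP_e4665f_co, Q1: the exact asymptotic constant for a family of graphs. -/

set_option autoImplicit false

namespace Pool.Agent.Results.MP_e4665f_co.ConeBridge

/-- The rainbow saturation number `rsat(n, H)`, exactly as in the frozen statement: the least number
of edges of an edge-coloured graph `(G, χ)` on `n` vertices without rainbow copy of `H` such that
adding any missing edge in any colour creates a rainbow copy of `H`. -/
noncomputable def rsat {k : ℕ} (H : SimpleGraph (Fin k)) (n : ℕ) : ℕ :=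
  sInf {m : ℕ | ∃ (G : SimpleGraph (Fin n)) (χ : Sym2 (Fin n) → ℕ),
    G.edgeSet.ncard = m ∧
    (¬ ∃ f : Fin k → Fin n, Function.Injective f ∧
        (∀ u v, H.Adj u v → G.Adj (f u) (f v)) ∧
        ∀ e₁ ∈ H.edgeSet, ∀ e₂ ∈ H.edgeSet,
          χ (e₁.map f) = χ (e₂.map f) → e₁ = e₂) ∧
    ∀ x y : Fin n, x ≠ y → ¬ G.Adj x y → ∀ col : ℕ,
      ∃ f : Fin k → Fin n, Function.Injective f ∧
        (∀ u v, H.Adj u v →
          (G ⊔ SimpleGraph.fromEdgeSet {s(x, y)}).Adj (f u) (f v)) ∧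
        ∀ e₁ ∈ H.edgeSet, ∀ e₂ ∈ H.edgeSet,
          Function.update χ s(x, y) col (e₁.map f) =
            Function.update χ s(x, y) col (e₂.map f) → e₁ = e₂}

/-- Let `H` be connected, `A` a set of less than half of the vertices such that the only edge
leaving `A` is an edge `w' w`, and let `w` be adjacent to all other vertices outside of `A`.  If
every edge `u v` with `u, v ≠ w` lies in a triangle, and the degree of `u` plus the number of
triangles containing `u v` is at least `b - 2`, where `b` is the number of vertices outside of `A`,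
then `rsat(n, H) = (b - 1) n / 2 + O(1)`. -/
theorem result (k : ℕ) (H : SimpleGraph (Fin k)) (hconn : H.Connected) (A : Finset (Fin k))
    (w w' : Fin k) (hw' : w' ∈ A) (hw : w ∉ A) (hww' : H.Adj w w')
    (hcut : ∀ u v, u ∈ A → v ∉ A → H.Adj u v → u = w' ∧ v = w)
    (hcone : ∀ v, v ∉ A → v ≠ w → H.Adj w v) (hsize : 2 * A.card < k)
    (htri : ∀ u v, H.Adj u v → u ≠ w → v ≠ w → (H.commonNeighbors u v).Nonempty ∧
      k - A.card ≤ (H.neighborSet u).ncard + (H.commonNeighbors u v).ncard + 2) :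
    (∃ C : ℝ, ∀ n : ℕ, |(rsat H n : ℝ) - ((k : ℝ) - A.card - 1) / 2 * n| ≤ C) ∧
      Filter.Tendsto (fun n : ℕ => (rsat H n : ℝ) / (n : ℝ)) Filter.atTop
        (nhds (((k : ℝ) - A.card - 1) / 2)) := by
  have hr : ∀ n, rsat H n = Helper28.RS.rsat H n := fun n => rfl
  have hA : 0 < A.card := Finset.card_pos.2 ⟨w', hw'⟩
  obtain ⟨C, hC⟩ := Helper69.CB.main_nat (H := H) (A := A) (w := w) (w' := w')
    ⟨hconn, hw', hw, hww', hcut, hcone, hsize⟩ htri
  have hb : ((k - A.card - 1 : ℕ) : ℝ) = (k : ℝ) - A.card - 1 := by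
    have h1 : k = (k - A.card - 1) + A.card + 1 := by omega
    have h2 : (k : ℝ) = ((k - A.card - 1 : ℕ) : ℝ) + A.card + 1 := by exact_mod_cast h1
    linarith
  have hbound : ∀ n : ℕ, |(rsat H n : ℝ) - ((k : ℝ) - A.card - 1) / 2 * n| ≤ (C : ℝ) := by
    intro n
    obtain ⟨h1, h2⟩ := hC n
    rw [← hr] at h1 h2
    have h1' : ((k - A.card - 1 : ℕ) : ℝ) * n ≤ 2 * rsat H n + C := by exact_mod_cast h1
    have h2' : 2 * (rsat H n : ℝ) ≤ ((k - A.card - 1 : ℕ) : ℝ) * n + C := by exact_mod_cast h2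
    rw [hb] at h1' h2'
    have hC0 : (0 : ℝ) ≤ C := Nat.cast_nonneg C
    rw [abs_le]
    constructor <;> linarith
  refine ⟨⟨C, hbound⟩, ?_⟩
  rw [tendsto_iff_dist_tendsto_zero]
  have hlim : Filter.Tendsto (fun n : ℕ => (C : ℝ) / (n : ℝ)) Filter.atTop (nhds 0) :=
    tendsto_const_div_atTop_nhds_zero_nat (C : ℝ)
  refine squeeze_zero' (Filter.Eventually.of_forall fun n => dist_nonneg) ?_ hlim
  filter_upwards [Filter.eventually_gt_atTop 0] with n hn
  have hn0 : (0 : ℝ) < n := by exact_mod_cast hn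
  rw [Real.dist_eq, le_div_iff₀ hn0]
  have h1 := hbound n
  rw [← abs_of_pos hn0, ← abs_mul, abs_of_pos hn0]
  have h2 : ((rsat H n : ℝ) / n - ((k : ℝ) - A.card - 1) / 2) * n =
      (rsat H n : ℝ) - ((k : ℝ) - A.card - 1) / 2 * n := by
    field_simp
  rw [h2]
  exact h1

end Pool.Agent.Results.MP_e4665f_co.ConeBridge
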