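import Pool.Agent.Helper28.RS.Count

/-! MP_e4665f_co, Q1: the rainbow analogue of the Truszczynski-Tuza theorem. -/

set_option autoImplicit false

namespace Pool.Agent.Results.MP_e4665f_co.LiminfBelowOne

/-- The rainbow saturation number `rsat(n, H)`, exactly as in the frozen statement: the least number
of edges of an edge-coloured graph `(G, χ)` on `n` vertices without rainbow copy of `H` such that
adding any missing edge in any colour creates a rainbow copy of `H`. -/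
noncomputable def rsat {k : ℕ} (H : SimpleGraph (Fin k)) (n : ℕ) : ℕ :=
  sInf {m : ℕ | ∃ (G : SimpleGraph (Fin n)) (χ : Sym2 (Fin n) → ℕ),
    G.edgeSet.ncard = m ∧
    (¬ ∃ f : Fin k → Fin n, Function.Injective f ∧
        (∀ u v, H.Adj u v → G.Adj (f u) (f v)) ∧
        ∀ e₁ ∈ H.edgeSet, ∀ e₂ ∈ H.edgeSet,
          χ (e₁.map f) = χ (e₂.map f) → e₁ = e₂) ∧
    ∀ x y : Fin n, x ≠ y → ¬ G.Adj x y → ∀ col : ℕ,
      ∃ f : Fin k → Fin n, Function.Injective f ∧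
        (∀ u v, H.Adj u v →
          (G ⊔ SimpleGraph.fromEdgeSet {s(x, y)}).Adj (f u) (f v)) ∧
        ∀ e₁ ∈ H.edgeSet, ∀ e₂ ∈ H.edgeSet,
          Function.update χ s(x, y) col (e₁.map f) =
            Function.update χ s(x, y) col (e₂.map f) → e₁ = e₂}

/-- If `liminf rsat(n, H) / n < 1`, then there is an integer `p ≥ 1` with
`rsat(n, H) = (1 - 1/p) n + O(1)`; in particular `rsat(n, H) / n` converges. -/
theorem result (k : ℕ) (H : SimpleGraph (Fin k)) (hH : H.edgeSet.Nonempty)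
    (hlow : ∃ ε : ℝ, 0 < ε ∧ ∃ᶠ n : ℕ in Filter.atTop, (rsat H n : ℝ) ≤ (1 - ε) * n) :
    ∃ p : ℕ, 0 < p ∧
      (∃ C : ℝ, ∀ n : ℕ, |(rsat H n : ℝ) - (1 - 1 / (p : ℝ)) * n| ≤ C) ∧
      Filter.Tendsto (fun n : ℕ => (rsat H n : ℝ) / (n : ℝ)) Filter.atTop
        (nhds (1 - 1 / (p : ℝ))) := by
  have hr : ∀ n, rsat H n = Helper28.RS.rsat H n := fun n => rfl
  obtain ⟨ε, hε, hlow⟩ := hlow
  simp only [hr] at hlow ⊢
  obtain ⟨p, hp, C, hC⟩ := Helper28.RS.main_nat hH hε hlow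
  have hp0 : (0 : ℝ) < p := by exact_mod_cast hp
  have hbound : ∀ n : ℕ, |(Helper28.RS.rsat H n : ℝ) - (1 - 1 / (p : ℝ)) * n| ≤ C := by
    intro n
    obtain ⟨h1, h2⟩ := hC n
    have hp1 : (((p - 1 : ℕ) : ℕ) : ℝ) = (p : ℝ) - 1 := by
      push_cast [Nat.cast_sub (show 1 ≤ p by omega)]
      ring
    have h1' : (p : ℝ) * Helper28.RS.rsat H n ≤ ((p : ℝ) - 1) * n + C := by
      rw [← hp1]
      exact_mod_cast h1
    have h2' : ((p : ℝ) - 1) * n ≤ p * Helper28.RS.rsat H n + C := by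
      rw [← hp1]
      exact_mod_cast h2
    have hC0 : (0 : ℝ) ≤ C := Nat.cast_nonneg C
    have hp1' : (1 : ℝ) ≤ p := by exact_mod_cast hp
    have key : (p : ℝ) * ((Helper28.RS.rsat H n : ℝ) - (1 - 1 / (p : ℝ)) * n) =
        p * Helper28.RS.rsat H n - ((p : ℝ) - 1) * n := by
      field_simp
    have h3 : (p : ℝ) * |(Helper28.RS.rsat H n : ℝ) - (1 - 1 / (p : ℝ)) * n| ≤ C := by
      rw [← abs_of_pos hp0, ← abs_mul, abs_of_pos hp0, key, abs_le]
      constructor <;> linarith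
    calc |(Helper28.RS.rsat H n : ℝ) - (1 - 1 / (p : ℝ)) * n|
        = 1 * |(Helper28.RS.rsat H n : ℝ) - (1 - 1 / (p : ℝ)) * n| := (one_mul _).symm
      _ ≤ p * |(Helper28.RS.rsat H n : ℝ) - (1 - 1 / (p : ℝ)) * n| :=
          mul_le_mul_of_nonneg_right hp1' (abs_nonneg _)
      _ ≤ C := h3
  refine ⟨p, hp, ⟨C, hbound⟩, ?_⟩
  rw [tendsto_iff_dist_tendsto_zero]
  have hlim : Filter.Tendsto (fun n : ℕ => (C : ℝ) / (n : ℝ)) Filter.atTop (nhds 0) :=
    tendsto_const_div_atTop_nhds_zero_nat (C : ℝ)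
  refine squeeze_zero' (Filter.Eventually.of_forall fun n => dist_nonneg) ?_ hlim
  filter_upwards [Filter.eventually_gt_atTop 0] with n hn
  have hn0 : (0 : ℝ) < n := by exact_mod_cast hn
  rw [Real.dist_eq, le_div_iff₀ hn0]
  have h1 := hbound n
  rw [← abs_of_pos hn0, ← abs_mul, abs_of_pos hn0]
  have h2 : ((Helper28.RS.rsat H n : ℝ) / n - (1 - 1 / (p : ℝ))) * n =
      (Helper28.RS.rsat H n : ℝ) - (1 - 1 / (p : ℝ)) * n := by
    field_simp
  rw [h2]
  exact h1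

end Pool.Agent.Results.MP_e4665f_co.LiminfBelowOne
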