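import Pool.Agent.Helper3.RT.NonCutMain

/-! MP_e4665f_co, Q1: the limit exists for connected graphs with a pendant path, second family. -/

set_option autoImplicit false

namespace Pool.Agent.Results.MP_e4665f_co.PendantPathNonCut

/-- The rainbow saturation number `rsat(n, H)`, exactly as in the frozen statement: the least number
of edges of an edge-coloured graph `(G, χ)` on `n` vertices without rainbow copy of `H` such that
adding any missing edge in any colour creates a rainbow copy of `H`. -/
noncomputable def rsat {k : ℕ} (H : SimpleGraph (Fin k)) (n : ℕ) : ℕ :=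
  sInf {m : ℕ | ∃ (G : SimpleGraph (Fin n)) (χ : Sym2 (Fin n) → ℕ),
    G.edgeSet.ncard = m ∧
    (¬ ∃ f : Fin k → Fin n, Function.Injective f ∧
        (∀ u v, H.Adj u v → G.Adj (f u) (f v)) ∧
        ∀ e₁ ∈ H.edgeSet, ∀ e₂ ∈ H.edgeSet,
          χ (e₁.map f) = χ (e₂.map f) → e₁ = e₂) ∧
    ∀ x y : Fin n, x ≠ y → ¬ G.Adj x y → ∀ col : ℕ,
      ∃ f : Fin k → Fin n, Function.Injective f ∧
        (∀ u v, H.Adj u v →
          (G ⊔ SimpleGraph.fromEdgeSet {s(x, y)}).Adj (f u) (f v)) ∧
        ∀ e₁ ∈ H.edgeSet, ∀ e₂ ∈ H.edgeSet,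
          Function.update χ s(x, y) col (e₁.map f) =
            Function.update χ s(x, y) col (e₂.map f) → e₁ = e₂}

/-- the degree of a vertex -/
noncomputable def deg {k : ℕ} (H : SimpleGraph (Fin k)) (x : Fin k) : ℕ :=
  (H.neighborSet x).ncard

/-- the number of leaves (vertices of degree one) adjacent to a vertex -/
noncomputable def leaves {k : ℕ} (H : SimpleGraph (Fin k)) (x : Fin k) : ℕ :=
  {y : Fin k | H.Adj x y ∧ deg H y = 1}.ncard

/-- Let `H` be a connected graph with a pendant path `w v l` of length two (`l` has degree one and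
`v` has degree two) such that `w` is not a leaf. Assume that for every vertex `u` other than `w`
adjacent to more leaves than `w`, deleting `u` and the leaves adjacent to `u` leaves a connected
graph. Then `rsat(n, H) ≤ n + O(1)`, and `rsat(n, H) / n` converges, to `1` or to `1 - 1/p` for an
integer `p ≥ 1`. -/
theorem result (k : ℕ) (H : SimpleGraph (Fin k)) (hconn : H.Connected) (w v l : Fin k)
    (hwv : H.Adj w v) (hvl : H.Adj v l) (hv : deg H v = 2) (hl : deg H l = 1)
    (hw : deg H w ≠ 1)
    (hG : ∀ u, u ≠ w → leaves H w < leaves H u →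
      (H.induce {x | x ≠ u ∧ ¬ (H.Adj u x ∧ deg H x = 1)}).Preconnected) :
    (∃ C : ℕ, ∀ n : ℕ, rsat H n ≤ n + C) ∧
    ∃ c : ℝ, (c = 1 ∨ ∃ p : ℕ, 0 < p ∧ c = 1 - 1 / (p : ℝ)) ∧
      Filter.Tendsto (fun n : ℕ => (rsat H n : ℝ) / (n : ℝ)) Filter.atTop (nhds c) :=
  Helper3.RT.NonCut.main k H hconn w v l hwv hvl hv hl hw hG

end Pool.Agent.Results.MP_e4665f_co.PendantPathNonCut
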