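import Pool.Agent.Helper29.ML.PendMain

/-! MP_e4665f_co, Q1: the limit exists if the rainbow saturation number is small compared with the
minimum degree of the non-leaves, and for connected graphs with a pendant star of minimum degree. -/

set_option autoImplicit false

namespace Pool.Agent.Results.MP_e4665f_co.PendantStar

/-- The rainbow saturation number `rsat(n, H)`, exactly as in the frozen statement: the least number
of edges of an edge-coloured graph `(G, χ)` on `n` vertices without rainbow copy of `H` such that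
adding any missing edge in any colour creates a rainbow copy of `H`. -/
noncomputable def rsat {k : ℕ} (H : SimpleGraph (Fin k)) (n : ℕ) : ℕ :=
  sInf {m : ℕ | ∃ (G : SimpleGraph (Fin n)) (χ : Sym2 (Fin n) → ℕ),
    G.edgeSet.ncard = m ∧
    (¬ ∃ f : Fin k → Fin n, Function.Injective f ∧
        (∀ u v, H.Adj u v → G.Adj (f u) (f v)) ∧
        ∀ e₁ ∈ H.edgeSet, ∀ e₂ ∈ H.edgeSet,
          χ (e₁.map f) = χ (e₂.map f) → e₁ = e₂) ∧
    ∀ x y : Fin n, x ≠ y → ¬ G.Adj x y → ∀ col : ℕ,
      ∃ f : Fin k → Fin n, Function.Injective f ∧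
        (∀ u v, H.Adj u v →
          (G ⊔ SimpleGraph.fromEdgeSet {s(x, y)}).Adj (f u) (f v)) ∧
        ∀ e₁ ∈ H.edgeSet, ∀ e₂ ∈ H.edgeSet,
          Function.update χ s(x, y) col (e₁.map f) =
            Function.update χ s(x, y) col (e₂.map f) → e₁ = e₂}

/-- the degree of a vertex -/
noncomputable def deg {k : ℕ} (H : SimpleGraph (Fin k)) (x : Fin k) : ℕ :=
  (H.neighborSet x).ncard

/-- the number of leaves (vertices of degree one) adjacent to a vertex -/
noncomputable def leaves {k : ℕ} (H : SimpleGraph (Fin k)) (x : Fin k) : ℕ :=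
  {y : Fin k | H.Adj x y ∧ deg H y = 1}.ncard

/-- the number of vertices adjacent to a vertex which are not leaves -/
noncomputable def inner {k : ℕ} (H : SimpleGraph (Fin k)) (x : Fin k) : ℕ :=
  {y : Fin k | H.Adj x y ∧ deg H y ≠ 1}.ncard

/-- Let `H` be a connected graph with a leaf and at least three vertices in which all vertices which
are not leaves have degree at least `δ`.
(1) If `liminf rsat(n, H) / n < δ / 2`, then `rsat(n, H) / n` converges.
(2) Let `v` be a vertex of degree `δ` all of whose neighbours except `w` are leaves, `w` not a leaf.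
Assume that (a) every vertex `x` with at most as many non-leaf neighbours as `w` has degree
`deg x ≤ deg w + δ - 3` (so `δ ≥ 3`), or (b) every edge at `w` is a bridge and there is no path `w u b` such that `b` is
not a leaf, all neighbours of `b` except `u` are leaves, and `u` is adjacent to at least
`leaves w + deg b - 1` leaves. Then `rsat(n, H) ≤ δ n / 2 + O(1)`, and `rsat(n, H) / n` converges. -/
theorem result (k : ℕ) (hk : 3 ≤ k) (H : SimpleGraph (Fin k)) (hconn : H.Connected) (δ : ℕ)
    (hδ : 2 ≤ δ) (hdeg : ∀ x, deg H x = 1 ∨ δ ≤ deg H x) (hleaf : ∃ x, deg H x = 1) :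
    ((∃ ε : ℝ, 0 < ε ∧ ∃ᶠ n : ℕ in Filter.atTop, (rsat H n : ℝ) ≤ ((δ : ℝ) / 2 - ε) * n) →
      ∃ c : ℝ, c < (δ : ℝ) / 2 ∧
        Filter.Tendsto (fun n : ℕ => (rsat H n : ℝ) / (n : ℝ)) Filter.atTop (nhds c)) ∧
    (∀ w v, H.Adj w v → deg H w ≠ 1 → deg H v = δ →
      (∀ x, H.Adj v x → x ≠ w → deg H x = 1) →
      ((∀ x, inner H x ≤ inner H w → deg H x + 3 ≤ deg H w + δ) ∨
        ((∀ y, H.Adj w y → H.IsBridge s(w, y)) ∧
          ∀ u b, H.Adj w u → H.Adj u b → b ≠ w → deg H b ≠ 1 →
            (∀ x, H.Adj b x → x ≠ u → deg H x = 1) →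
            leaves H u < leaves H w + (deg H b - 1))) →
      (∃ C : ℕ, ∀ n : ℕ, 2 * rsat H n ≤ δ * n + C) ∧
      ∃ c : ℝ, c ≤ (δ : ℝ) / 2 ∧
        Filter.Tendsto (fun n : ℕ => (rsat H n : ℝ) / (n : ℝ)) Filter.atTop (nhds c)) :=
  Pool.Agent.Helper29.ML.PendMain.result k hk H hconn δ hδ hdeg hleaf

end Pool.Agent.Results.MP_e4665f_co.PendantStar
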